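import Mathlib
import Pool.Agent.Q54.EM.StmU

/-!
# Uniform forms of the asymptotic Erdos matching theorem from the pointwise one
-/

set_option autoImplicit false

namespace Pool.Agent.Q128.EM

open Finset Pool.Agent.Q54.EM

/-- the pointwise upper bound at `x` -/
def PX (k : ℕ) (x : ℝ) : Prop := ∀ ε : ℝ, 0 < ε → ∃ N : ℕ, ∀ n : ℕ, N ≤ n →
  ∀ F : Finset (Finset (Fin n)), (∀ A ∈ F, A.card = k) →
  (∀ M : Finset (Finset (Fin n)), M ⊆ F →
    (M : Set (Finset (Fin n))).PairwiseDisjoint id → (M.card : ℝ) ≤ x * n) →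
  (F.card : ℝ) ≤ (max (1 - (1 - x) ^ k) (((k : ℝ) * x) ^ k) + ε) * (n.choose k : ℝ)

/-- powers are Lipschitz on the unit interval -/
theorem pow_lip (k : ℕ) (a b : ℝ) (hb : 0 ≤ b) (hab : b ≤ a) (ha : a ≤ 1) :
    a ^ k ≤ b ^ k + k * (a - b) := by
  induction k with
  | zero => simp
  | succ j ih =>
    have h0 : 0 ≤ a := hb.trans hab
    have h1 : b ^ j ≤ 1 := pow_le_one₀ hb (hab.trans ha)
    have h2 : a ^ j * a ≤ (b ^ j + j * (a - b)) * a := mul_le_mul_of_nonneg_right ih h0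
    have h3 : (j : ℝ) * (a - b) * a ≤ j * (a - b) * 1 :=
      mul_le_mul_of_nonneg_left ha (mul_nonneg (Nat.cast_nonneg _) (by linarith))
    have h4 : b ^ j * (a - b) ≤ 1 * (a - b) := mul_le_mul_of_nonneg_right h1 (by linarith)
    rw [pow_succ, pow_succ]
    push_cast
    nlinarith

/-- upper bound for a quotient of binomial coefficients -/
theorem choose_up (n m k : ℕ) (hm : m ≤ n) :
    (m.choose k : ℝ) * (n : ℝ) ^ k ≤ (m : ℝ) ^ k * (n.choose k : ℝ) := by
  have key : m.descFactorial k * n ^ k ≤ m ^ k * n.descFactorial k := by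
    induction k with
    | zero => simp
    | succ j ih =>
      rw [Nat.descFactorial_succ, Nat.descFactorial_succ, pow_succ, pow_succ]
      have h1 : (m - j) * n ≤ m * (n - j) := by
        rcases le_or_gt j m with h | h
        · obtain ⟨a, rfl⟩ := Nat.exists_eq_add_of_le h
          obtain ⟨b, rfl⟩ := Nat.exists_eq_add_of_le hm
          have e1 : j + a - j = a := by omega
          have e2 : j + a + b - j = a + b := by omega
          rw [e1, e2]
          nlinarith [Nat.zero_le (j * b)]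
        · have e1 : m - j = 0 := by omega
          rw [e1]; simp
      calc (m - j) * m.descFactorial j * (n ^ j * n)
          = (m.descFactorial j * n ^ j) * ((m - j) * n) := by ring
        _ ≤ (m ^ j * n.descFactorial j) * (m * (n - j)) := Nat.mul_le_mul ih h1
        _ = m ^ j * m * ((n - j) * n.descFactorial j) := by ring
  rw [Nat.descFactorial_eq_factorial_mul_choose, Nat.descFactorial_eq_factorial_mul_choose] at key
  have h2 : k.factorial * (m.choose k * n ^ k) ≤ k.factorial * (m ^ k * n.choose k) := by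
    calc _ = k.factorial * m.choose k * n ^ k := by ring
      _ ≤ _ := key
      _ = _ := by ring
  have h3 := Nat.le_of_mul_le_mul_left h2 (Nat.factorial_pos k)
  exact_mod_cast h3

/-- lower bound for a quotient of binomial coefficients -/
theorem choose_dn (n m k : ℕ) (hn : 0 < n) (hm : m ≤ n) :
    ((m : ℝ) / n) ^ k * (n.choose k : ℝ) ≤ (m.choose k : ℝ) + (k : ℝ) ^ 2 / n * (n.choose k : ℝ) := by
  have hn0 : (0 : ℝ) < n := by exact_mod_cast hn
  have hc : (0 : ℝ) ≤ n.choose k := Nat.cast_nonneg _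
  -- the natural number inequality
  have key : (m - k) ^ k * n.choose k ≤ m.choose k * n ^ k := by
    have h1 : (m - k) ^ k ≤ m.descFactorial k :=
      le_trans (Nat.pow_le_pow_left (by omega) k) (Nat.pow_sub_le_descFactorial m k)
    have h2 : n.descFactorial k ≤ n ^ k := Nat.descFactorial_le_pow n k
    have h3 : k.factorial * ((m - k) ^ k * n.choose k) ≤ k.factorial * (m.choose k * n ^ k) := by
      calc k.factorial * ((m - k) ^ k * n.choose k)
          = (m - k) ^ k * (k.factorial * n.choose k) := by ring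
        _ = (m - k) ^ k * n.descFactorial k := by
            rw [← Nat.descFactorial_eq_factorial_mul_choose]
        _ ≤ m.descFactorial k * n ^ k := Nat.mul_le_mul h1 h2
        _ = k.factorial * (m.choose k * n ^ k) := by
            rw [Nat.descFactorial_eq_factorial_mul_choose]; ring
    exact Nat.le_of_mul_le_mul_left h3 (Nat.factorial_pos k)
  have key' : (((m - k : ℕ) : ℝ)) ^ k * (n.choose k : ℝ) ≤ (m.choose k : ℝ) * (n : ℝ) ^ k := by
    exact_mod_cast key
  have h4 : (((m - k : ℕ) : ℝ) / n) ^ k * (n.choose k : ℝ) ≤ (m.choose k : ℝ) := by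
    rw [div_pow, div_mul_eq_mul_div, div_le_iff₀ (by positivity)]
    exact key'
  have h5 : ((m : ℝ) / n) ^ k ≤ (((m - k : ℕ) : ℝ) / n) ^ k + k * ((m : ℝ) / n - ((m - k : ℕ) : ℝ) / n) := by
    apply pow_lip
    · positivity
    · gcongr
      omega
    · rw [div_le_one hn0]; exact_mod_cast hm
  have h6 : (m : ℝ) / n - ((m - k : ℕ) : ℝ) / n ≤ k / n := by
    rw [← sub_div]
    gcongr
    have : (m : ℝ) ≤ ((m - k : ℕ) : ℝ) + k := by
      have h7 : m ≤ (m - k) + k := by omega
      exact_mod_cast h7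
    linarith
  have h7 : (k : ℝ) * ((m : ℝ) / n - ((m - k : ℕ) : ℝ) / n) ≤ (k : ℝ) ^ 2 / n := by
    calc (k : ℝ) * ((m : ℝ) / n - ((m - k : ℕ) : ℝ) / n) ≤ k * (k / n) :=
          mul_le_mul_of_nonneg_left h6 (Nat.cast_nonneg _)
      _ = (k : ℝ) ^ 2 / n := by ring
  calc ((m : ℝ) / n) ^ k * (n.choose k : ℝ)
      ≤ ((((m - k : ℕ) : ℝ) / n) ^ k + (k : ℝ) ^ 2 / n) * (n.choose k : ℝ) :=
        mul_le_mul_of_nonneg_right (by linarith) hc
    _ = (((m - k : ℕ) : ℝ) / n) ^ k * (n.choose k : ℝ) + (k : ℝ) ^ 2 / n * (n.choose k : ℝ) := by ring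
    _ ≤ _ := by linarith

/-- the uniform upper bound: one `N` for all `h < n/k` -/
theorem grid (k : ℕ) (hk : 2 ≤ k) (hP : ∀ x : ℝ, 0 < x → x ≤ 1 / (k : ℝ) → PX k x)
    (ε : ℝ) (hε : 0 < ε) : ∃ N : ℕ, ∀ n : ℕ, N ≤ n → ∀ h : ℝ, 0 ≤ h → k * h < n →
    ∀ F : Finset (Finset (Fin n)), (∀ A ∈ F, A.card = k) →
    (∀ M : Finset (Finset (Fin n)), M ⊆ F →
      (M : Set (Finset (Fin n))).PairwiseDisjoint id → (M.card : ℝ) ≤ h) →
    (F.card : ℝ) ≤ (max (1 - (1 - h / n) ^ k) (((k : ℝ) * (h / n)) ^ k) + ε) * (n.choose k : ℝ) := by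
  have hk0 : (0 : ℝ) < k := by positivity
  have hk2 : (2 : ℝ) ≤ k := by exact_mod_cast hk
  obtain ⟨m, hm⟩ := exists_nat_gt (2 * k / ε)
  have hm0 : (0 : ℝ) < m := lt_trans (by positivity) hm
  have hm1 : 0 < m := by exact_mod_cast hm0
  have hP' : ∀ i : ℕ, ∃ N : ℕ, i < m → ∀ n : ℕ, N ≤ n →
      ∀ F : Finset (Finset (Fin n)), (∀ A ∈ F, A.card = k) →
      (∀ M : Finset (Finset (Fin n)), M ⊆ F →
        (M : Set (Finset (Fin n))).PairwiseDisjoint id → (M.card : ℝ) ≤ ((i : ℝ) + 1) / (k * m) * n) →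
      (F.card : ℝ) ≤ (max (1 - (1 - ((i : ℝ) + 1) / (k * m)) ^ k)
        (((k : ℝ) * (((i : ℝ) + 1) / (k * m))) ^ k) + ε / 2) * (n.choose k : ℝ) := by
    intro i
    by_cases hi : i < m
    · obtain ⟨N, hN⟩ := hP (((i : ℝ) + 1) / (k * m)) (by positivity) (by
        rw [div_le_div_iff₀ (by positivity) hk0]
        have : (i : ℝ) + 1 ≤ m := by exact_mod_cast hi
        nlinarith) (ε / 2) (by linarith)
      exact ⟨N, fun _ => hN⟩
    · exact ⟨0, fun h => absurd h hi⟩
  choose N0 hN0 using hP'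
  refine ⟨(Finset.range m).sup N0 + 1, fun n hn h hh hhn F hF hM => ?_⟩
  have hn1 : 0 < n := by omega
  have hn0 : (0 : ℝ) < n := by exact_mod_cast hn1
  set z : ℝ := h / n with hz
  have hz0 : 0 ≤ z := by positivity
  have hzk : k * z < 1 := by
    rw [hz, ← mul_div_assoc, div_lt_one hn0]; exact hhn
  set i : ℕ := ⌊z * (k * m)⌋₊ with hi
  have hzm : 0 ≤ z * (k * m) := by positivity
  have hi1 : (i : ℝ) ≤ z * (k * m) := Nat.floor_le hzm
  have hi2 : z * (k * m) < i + 1 := Nat.lt_floor_add_one _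
  have him : i < m := by
    have : (i : ℝ) < m := by
      calc (i : ℝ) ≤ z * (k * m) := hi1
        _ = (k * z) * m := by ring
        _ < 1 * m := mul_lt_mul_of_pos_right hzk hm0
        _ = m := one_mul _
    exact_mod_cast this
  set y : ℝ := ((i : ℝ) + 1) / (k * m) with hy
  have hkm : (0 : ℝ) < k * m := by positivity
  have hzy : z < y := by
    rw [hy, lt_div_iff₀ hkm]; exact hi2
  have hyz : y ≤ z + 1 / (k * m) := by
    rw [hy, add_div]
    have : (i : ℝ) / (k * m) ≤ z := by rw [div_le_iff₀ hkm]; exact hi1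
    linarith
  have hyk : k * y ≤ 1 := by
    rw [hy, ← mul_div_assoc, div_le_one hkm]
    have : (i : ℝ) + 1 ≤ m := by exact_mod_cast him
    nlinarith
  have hle : N0 i ≤ n := by
    have := Finset.le_sup (f := N0) (Finset.mem_range.2 him)
    omega
  have h1 := hN0 i him n hle F hF (fun M hMF hMd => by
    refine (hM M hMF hMd).trans ?_
    have : h = z * n := by rw [hz]; field_simp
    rw [this]
    exact mul_le_mul_of_nonneg_right hzy.le hn0.le)
  have hc : (0 : ℝ) ≤ n.choose k := Nat.cast_nonneg _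
  have hy1 : y ≤ 1 := by nlinarith
  -- Lipschitz estimates
  have h2 : (1 - z) ^ k ≤ (1 - y) ^ k + k * ((1 - z) - (1 - y)) :=
    pow_lip k (1 - z) (1 - y) (by linarith) (by linarith) (by linarith)
  have h3 : (k * y) ^ k ≤ (k * z) ^ k + k * (k * y - k * z) :=
    pow_lip k (k * y) (k * z) (by positivity) (by nlinarith) hyk
  have h4 : (k : ℝ) * (k * (y - z)) ≤ ε / 2 := by
    have e1 : k * (y - z) ≤ 1 / m := by
      have : k * (1 / (k * m)) = 1 / (m : ℝ) := by field_simp
      nlinarith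
    have e2 : (k : ℝ) * (1 / m) ≤ ε / 2 := by
      rw [mul_one_div, div_le_iff₀ hm0]
      rw [div_lt_iff₀ hε] at hm
      nlinarith
    nlinarith
  have h5 : (k : ℝ) * (y - z) ≤ ε / 2 := by
    have : (k : ℝ) * (y - z) ≤ k * (k * (y - z)) := by
      have e0 : 0 ≤ (k : ℝ) * (y - z) := mul_nonneg hk0.le (by linarith)
      nlinarith
    linarith
  have h6 : max (1 - (1 - y) ^ k) ((k * y) ^ k) ≤ max (1 - (1 - z) ^ k) ((k * z) ^ k) + ε / 2 := by
    apply max_le
    · have := le_max_left (1 - (1 - z) ^ k) ((k * z) ^ k)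
      nlinarith
    · have := le_max_right (1 - (1 - z) ^ k) ((k * z) ^ k)
      nlinarith
  calc (F.card : ℝ) ≤ _ := h1
    _ ≤ (max (1 - (1 - z) ^ k) ((k * z) ^ k) + ε / 2 + ε / 2) * (n.choose k : ℝ) :=
        mul_le_mul_of_nonneg_right (by linarith) hc
    _ = _ := by ring

/-- the uniform Erdos matching theorem from the pointwise one -/
theorem uemCore (hP : ∀ k : ℕ, 2 ≤ k → ∀ x : ℝ, 0 < x → x ≤ 1 / (k : ℝ) → PX k x) : S_UEM := by
  intro k hk ε hε
  have hk0 : (0 : ℝ) < k := by positivity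
  obtain ⟨N, hN⟩ := grid k hk (hP k hk) (ε / 2) (by linarith)
  obtain ⟨N2, hN2⟩ := exists_nat_gt (2 * (k : ℝ) ^ 2 / ε)
  refine ⟨max N N2 + 1, fun n hn s hs F hF hM => ?_⟩
  have hn1 : 0 < n := by omega
  have hn0 : (0 : ℝ) < n := by exact_mod_cast hn1
  have hnN : N ≤ n := by have := le_max_left N N2; omega
  have hnN2 : N2 ≤ n := by have := le_max_right N N2; omega
  have hks : k * s < n := by
    have : k * (s + 1) = k * s + k := by ring
    omega
  have hsn : s ≤ n := by nlinarith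
  have h1 := hN n hnN (s : ℝ) (Nat.cast_nonneg _) (by exact_mod_cast hks) F hF
    (fun M hMF hMd => by exact_mod_cast hM M hMF hMd)
  have hc : (0 : ℝ) ≤ n.choose k := Nat.cast_nonneg _
  -- first lower bound
  have h2 : (1 - (1 - (s : ℝ) / n) ^ k) * (n.choose k : ℝ) ≤ (n.choose k : ℝ) - ((n - s).choose k : ℝ) := by
    have e1 := choose_up n (n - s) k (Nat.sub_le _ _)
    have e2 : (1 - (s : ℝ) / n) = ((n - s : ℕ) : ℝ) / n := by
      rw [Nat.cast_sub hsn]; field_simp
    rw [e2, div_pow]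
    have e3 : ((n - s).choose k : ℝ) ≤ ((n - s : ℕ) : ℝ) ^ k / (n : ℝ) ^ k * (n.choose k : ℝ) := by
      rw [div_mul_eq_mul_div, le_div_iff₀ (by positivity)]
      exact e1
    linarith
  -- second lower bound
  have h3 : ((k : ℝ) * ((s : ℝ) / n)) ^ k * (n.choose k : ℝ) ≤
      (((k * (s + 1) - 1).choose k : ℕ) : ℝ) + ε / 2 * (n.choose k : ℝ) := by
    have e1 := choose_dn n (k * s) k hn1 hks.le
    have e2 : (((k * s : ℕ) : ℝ) / n) = (k : ℝ) * ((s : ℝ) / n) := by push_cast; ring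
    rw [e2] at e1
    have e3 : (((k * s).choose k : ℕ) : ℝ) ≤ (((k * (s + 1) - 1).choose k : ℕ) : ℝ) := by
      exact_mod_cast Nat.choose_le_choose k (by
        have : k * (s + 1) = k * s + k := by ring
        omega)
    have e4 : (k : ℝ) ^ 2 / n ≤ ε / 2 := by
      rw [div_le_iff₀ hn0]
      rw [div_lt_iff₀ hε] at hN2
      have : (N2 : ℝ) ≤ n := by exact_mod_cast hnN2
      nlinarith
    have e5 : (k : ℝ) ^ 2 / n * (n.choose k : ℝ) ≤ ε / 2 * (n.choose k : ℝ) :=
      mul_le_mul_of_nonneg_right e4 hc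
    linarith
  have h4 : max (1 - (1 - (s : ℝ) / n) ^ k) (((k : ℝ) * ((s : ℝ) / n)) ^ k) * (n.choose k : ℝ) ≤
      max ((n.choose k : ℝ) - ((n - s).choose k : ℝ)) (((k * (s + 1) - 1).choose k : ℕ) : ℝ) +
        ε / 2 * (n.choose k : ℝ) := by
    have e0 : 0 ≤ ε / 2 * (n.choose k : ℝ) := by positivity
    rcases max_choice (1 - (1 - (s : ℝ) / n) ^ k) (((k : ℝ) * ((s : ℝ) / n)) ^ k) with h5 | h5
    · rw [h5]
      have := le_max_left ((n.choose k : ℝ) - ((n - s).choose k : ℝ))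
        (((k * (s + 1) - 1).choose k : ℕ) : ℝ)
      linarith
    · rw [h5]
      have := le_max_right ((n.choose k : ℝ) - ((n - s).choose k : ℝ))
        (((k * (s + 1) - 1).choose k : ℕ) : ℝ)
      linarith
  rw [add_mul] at h1
  linarith

end Pool.Agent.Q128.EM
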