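import Mathlib
import Pool.Agent.Q128.EM.Core

/-!
# Poison distributions, uniform in the dose, from the pointwise Erdos matching theorem
-/

set_option autoImplicit false

namespace Pool.Agent.Q128.EM

open Finset Pool.Agent.Q54.EM

theorem LL_eq {n : ℕ} (k : ℕ) (x : Fin n → ℝ) (F : Finset (Finset (Fin n)))
    (hF : ∀ V, V ∈ F ↔ V.card = k ∧ (1 : ℝ) ≤ ∑ i ∈ V, x i) : LL k x = F.card := by
  unfold LL
  rw [← Set.ncard_coe_finset]
  congr 1
  ext V
  simp [hF]

theorem LL_le_choose {n : ℕ} (k : ℕ) (x : Fin n → ℝ) : LL k x ≤ n.choose k := by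
  classical
  rw [LL_eq k x (univ.filter (fun V => V.card = k ∧ (1 : ℝ) ≤ ∑ i ∈ V, x i)) (by simp)]
  calc _ ≤ (powersetCard k (univ : Finset (Fin n))).card := by
        apply card_le_card
        intro V hV
        rw [mem_powersetCard]
        exact ⟨subset_univ _, (mem_filter.1 hV).2.1⟩
    _ = n.choose k := by rw [card_powersetCard, card_univ, Fintype.card_fin]

/-- `k`-sets which meet the first `s` elements are lethal -/
theorem LL_one_ge (n k : ℕ) (h : ℝ) (s : ℕ) (hs : s ≤ n) (hsh : s ≤ ⌊h⌋₊) :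
    n.choose k ≤ LL k (ds n h 1) + (n - s).choose k := by
  classical
  set S : Finset (Fin n) := univ.filter (fun i => i.val < s) with hS
  have hSc : S.card = s := by
    have h1 : S.card = ((univ : Finset (Fin n)).filter (fun i => i.val < s)).card := rfl
    rw [h1, Fin.card_filter_val_lt]
    exact min_eq_right hs
  have hSc' : Sᶜ.card = n - s := by rw [card_compl, Fintype.card_fin, hSc]
  rw [LL_eq k (ds n h 1) (univ.filter (fun V => V.card = k ∧ (1 : ℝ) ≤ ∑ i ∈ V, ds n h 1 i))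
    (by simp), ← hSc', ← card_powersetCard]
  have h0 : n.choose k = (powersetCard k (univ : Finset (Fin n))).card := by
    rw [card_powersetCard, card_univ, Fintype.card_fin]
  rw [h0]
  refine le_trans (card_le_card ?_) (card_union_le _ _)
  intro V hV
  rw [mem_powersetCard] at hV
  rw [mem_union]
  by_cases hd : V ⊆ Sᶜ
  · right
    rw [mem_powersetCard]
    exact ⟨hd, hV.2⟩
  · left
    rw [mem_filter]
    refine ⟨mem_univ _, hV.2, ?_⟩
    rw [Finset.not_subset] at hd
    obtain ⟨a, haV, haS⟩ := hd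
    have haS' : a ∈ S := by simpa using haS
    have ha : ds n h 1 a = 1 := by
      unfold ds
      rw [if_pos]
      · simp
      · rw [Nat.cast_one, mul_one]
        have := (mem_filter.1 haS').2
        exact lt_min a.2 (lt_of_lt_of_le this hsh)
    have hnn : ∀ i ∈ V, 0 ≤ ds n h 1 i := by
      intro i _
      unfold ds
      split_ifs
      · simp
      · exact le_refl _
    calc (1 : ℝ) = ds n h 1 a := ha.symm
      _ ≤ ∑ i ∈ V, ds n h 1 i := Finset.single_le_sum hnn haV

/-- subsets of the first `m` elements are lethal -/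
theorem LL_k_ge (n k : ℕ) (hk : 1 ≤ k) (h : ℝ) (m : ℕ) (hm : m ≤ n) (hmh : m ≤ ⌊h * (k : ℝ)⌋₊) :
    m.choose k ≤ LL k (ds n h k) := by
  classical
  have hk0 : (0 : ℝ) < k := by exact_mod_cast hk
  set S : Finset (Fin n) := univ.filter (fun i => i.val < m) with hS
  have hSc : S.card = m := by
    have h1 : S.card = ((univ : Finset (Fin n)).filter (fun i => i.val < m)).card := rfl
    rw [h1, Fin.card_filter_val_lt]
    exact min_eq_right hm
  rw [LL_eq k (ds n h k) (univ.filter (fun V => V.card = k ∧ (1 : ℝ) ≤ ∑ i ∈ V, ds n h k i))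
    (by simp), ← hSc, ← card_powersetCard]
  apply card_le_card
  intro V hV
  rw [mem_powersetCard] at hV
  rw [mem_filter]
  refine ⟨mem_univ _, hV.2, ?_⟩
  have : ∀ i ∈ V, ds n h k i = 1 / (k : ℝ) := by
    intro i hi
    unfold ds
    rw [if_pos]
    have h2 : i.val < m := (mem_filter.1 (hV.1 hi)).2
    exact lt_min i.2 (lt_of_lt_of_le h2 hmh)
  rw [Finset.sum_congr rfl this, Finset.sum_const, nsmul_eq_mul, hV.2, mul_one_div_cancel hk0.ne']

/-- the matching number of the family of lethal sets is at most the dose -/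
theorem match_le {n : ℕ} (x : Fin n → ℝ) (hx : ∀ i, 0 ≤ x i) (M : Finset (Finset (Fin n)))
    (hM : ∀ V ∈ M, (1 : ℝ) ≤ ∑ i ∈ V, x i) (hd : (M : Set (Finset (Fin n))).PairwiseDisjoint id) :
    (M.card : ℝ) ≤ ∑ i, x i := by
  classical
  calc (M.card : ℝ) = ∑ V ∈ M, (1 : ℝ) := by simp
    _ ≤ ∑ V ∈ M, ∑ i ∈ V, x i := Finset.sum_le_sum (fun V hV => hM V hV)
    _ = ∑ i ∈ M.biUnion id, x i := by
        rw [Finset.sum_biUnion hd]
        rfl
    _ ≤ ∑ i, x i := Finset.sum_le_sum_of_subset_of_nonneg (subset_univ _) (fun i _ _ => hx i)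

/-- one element sets -/
theorem LL_card_one (n : ℕ) (h : ℝ) (x : Fin n → ℝ) (hx : ∀ i, 0 ≤ x i)
    (hs : ∑ i, x i = h) : LL 1 x ≤ LL 1 (ds n h 1) := by
  classical
  set F : Finset (Finset (Fin n)) :=
    univ.filter (fun V => V.card = 1 ∧ (1 : ℝ) ≤ ∑ i ∈ V, x i) with hF
  have hLF : LL 1 x = F.card := LL_eq 1 x F (by simp [hF])
  have h1 : (F.card : ℝ) ≤ h := by
    rw [← hs]
    apply match_le x hx F (fun V hV => (mem_filter.1 hV).2.2)
    intro a ha b hb hab
    have ha1 := (mem_filter.1 (mem_coe.1 ha)).2.1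
    have hb1 := (mem_filter.1 (mem_coe.1 hb)).2.1
    obtain ⟨u, rfl⟩ := card_eq_one.1 ha1
    obtain ⟨v, rfl⟩ := card_eq_one.1 hb1
    simp only [Function.onFun, id]
    rw [disjoint_singleton]
    rintro rfl
    exact hab rfl
  have h2 : F.card ≤ ⌊h⌋₊ := Nat.le_floor h1
  have h3 : F.card ≤ n := by
    rw [← hLF]
    have := LL_le_choose 1 x
    simpa using this
  have h4 := LL_k_ge n 1 le_rfl h F.card h3 (by rw [Nat.cast_one, mul_one]; exact h2)
  rw [Nat.choose_one_right] at h4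
  omega

/-- the uniform theorem on poison distributions from the pointwise Erdos matching theorem -/
theorem updCore (hP : ∀ k : ℕ, 2 ≤ k → ∀ x : ℝ, 0 < x → x ≤ 1 / (k : ℝ) → PX k x) : S_UPD := by
  classical
  intro k hk1 ε hε
  rcases Nat.eq_or_lt_of_le hk1 with hk | hk
  · subst hk
    refine ⟨0, fun n _ h _ x hx hs => ?_⟩
    have h1 : (LL 1 x : ℝ) ≤ (LL 1 (ds n h 1) : ℝ) := by exact_mod_cast LL_card_one n h x hx hs
    have h2 := le_max_left (LL 1 (ds n h 1) : ℝ) (LL 1 (ds n h 1) : ℝ)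
    have h3 : 0 ≤ ε * (n.choose 1 : ℝ) := by positivity
    linarith
  have hk : 2 ≤ k := hk
  have hk0 : (0 : ℝ) < k := by positivity
  have hk2 : (2 : ℝ) ≤ k := by exact_mod_cast hk
  obtain ⟨N, hN⟩ := grid k hk (hP k hk) (ε / 2) (by linarith)
  obtain ⟨N2, hN2⟩ := exists_nat_gt (4 * (k : ℝ) ^ 2 / ε)
  refine ⟨max N N2 + 1, fun n hn h hh x hx hs => ?_⟩
  have hn1 : 0 < n := by omega
  have hn0 : (0 : ℝ) < n := by exact_mod_cast hn1
  have hnN : N ≤ n := by have := le_max_left N N2; omega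
  have hnN2 : N2 ≤ n := by have := le_max_right N N2; omega
  have hc : (0 : ℝ) ≤ n.choose k := Nat.cast_nonneg _
  have hk2n : (k : ℝ) ^ 2 / n ≤ ε / 4 := by
    rw [div_le_iff₀ hn0]
    rw [div_lt_iff₀ hε] at hN2
    have : (N2 : ℝ) ≤ n := by exact_mod_cast hnN2
    nlinarith
  have hkn : (k : ℝ) / n ≤ ε / 4 := by
    refine le_trans ?_ hk2n
    gcongr
    nlinarith
  by_cases hkh : (n : ℝ) ≤ k * h
  · -- large dose
    have h1 : n.choose k ≤ LL k (ds n h k) :=
      LL_k_ge n k (by omega) h n le_rfl (Nat.le_floor (by rw [mul_comm]; exact hkh))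
    have h2 : (LL k x : ℝ) ≤ (LL k (ds n h k) : ℝ) := by
      exact_mod_cast (LL_le_choose k x).trans h1
    have h3 := le_max_right (LL k (ds n h 1) : ℝ) (LL k (ds n h k) : ℝ)
    have h4 : 0 ≤ ε * (n.choose k : ℝ) := by positivity
    linarith
  rw [not_le] at hkh
  set F : Finset (Finset (Fin n)) :=
    univ.filter (fun V => V.card = k ∧ (1 : ℝ) ≤ ∑ i ∈ V, x i) with hF
  have hLF : LL k x = F.card := LL_eq k x F (by simp [hF])
  have h1 := hN n hnN h hh.le hkh F (fun V hV => (mem_filter.1 hV).2.1) (fun M hM hd => by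
    rw [← hs]
    exact match_le x hx M (fun V hV => (mem_filter.1 (hM hV)).2.2) hd)
  rw [← hLF] at h1
  have hhn : h ≤ n := by nlinarith
  set s : ℕ := ⌊h⌋₊ with hsd
  have hsh : (s : ℝ) ≤ h := Nat.floor_le hh.le
  have hsh2 : h < s + 1 := Nat.lt_floor_add_one _
  have hsn : s ≤ n := by
    have : (s : ℝ) ≤ n := hsh.trans hhn
    exact_mod_cast this
  set t : ℕ := ⌊h * (k : ℝ)⌋₊ with htd
  have hth : (t : ℝ) ≤ h * k := Nat.floor_le (by positivity)
  have hth2 : h * k < t + 1 := Nat.lt_floor_add_one _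
  have htn : t ≤ n := by
    have : (t : ℝ) ≤ n := by linarith
    exact_mod_cast this
  -- the `1/1` distribution
  have h2 : (1 - (1 - h / n) ^ k) * (n.choose k : ℝ) ≤ (LL k (ds n h 1) : ℝ) + ε / 4 * (n.choose k : ℝ) := by
    have e0 : (n.choose k : ℝ) ≤ (LL k (ds n h 1) : ℝ) + ((n - s).choose k : ℝ) := by
      exact_mod_cast LL_one_ge n k h s hsn le_rfl
    have e1 := choose_up n (n - s) k (Nat.sub_le _ _)
    have e2 : ((n - s).choose k : ℝ) ≤ (((n - s : ℕ) : ℝ) / n) ^ k * (n.choose k : ℝ) := by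
      rw [div_pow, div_mul_eq_mul_div, le_div_iff₀ (by positivity)]
      exact e1
    have e3 : (((n - s : ℕ) : ℝ) / n) = 1 - (s : ℝ) / n := by
      rw [Nat.cast_sub hsn]; field_simp
    rw [e3] at e2
    have e4 : (1 - (s : ℝ) / n) ^ k ≤ (1 - h / n) ^ k + k * ((1 - (s : ℝ) / n) - (1 - h / n)) := by
      apply pow_lip
      · have : h / n ≤ 1 := by rw [div_le_one hn0]; exact hhn
        linarith
      · have : (s : ℝ) / n ≤ h / n := by gcongr
        linarith
      · have : 0 ≤ (s : ℝ) / n := by positivity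
        linarith
    have e5 : (k : ℝ) * ((1 - (s : ℝ) / n) - (1 - h / n)) ≤ k / n := by
      have : (1 - (s : ℝ) / n) - (1 - h / n) = (h - s) / n := by ring
      rw [this, ← mul_div_assoc]
      gcongr
      nlinarith
    have e6 : (1 - (s : ℝ) / n) ^ k * (n.choose k : ℝ) ≤ ((1 - h / n) ^ k + ε / 4) * (n.choose k : ℝ) :=
      mul_le_mul_of_nonneg_right (by linarith) hc
    linarith
  -- the `1/k` distribution
  have h3 : ((k : ℝ) * (h / n)) ^ k * (n.choose k : ℝ) ≤ (LL k (ds n h k) : ℝ) + ε / 2 * (n.choose k : ℝ) := by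
    have e0 : (t.choose k : ℝ) ≤ (LL k (ds n h k) : ℝ) := by
      exact_mod_cast LL_k_ge n k (by omega) h t htn le_rfl
    have e1 := choose_dn n t k hn1 htn
    have e2 : ((k : ℝ) * (h / n)) ^ k ≤ ((t : ℝ) / n) ^ k + k * (k * (h / n) - (t : ℝ) / n) := by
      apply pow_lip
      · positivity
      · rw [← mul_div_assoc]
        gcongr
        linarith
      · rw [← mul_div_assoc, div_le_one hn0]; exact hkh.le
    have e3 : (k : ℝ) * (k * (h / n) - (t : ℝ) / n) ≤ k / n := by
      have : k * (h / n) - (t : ℝ) / n = (h * k - t) / n := by ring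
      rw [this, ← mul_div_assoc]
      gcongr
      nlinarith
    have e4 : ((k : ℝ) * (h / n)) ^ k * (n.choose k : ℝ) ≤ (((t : ℝ) / n) ^ k + ε / 4) * (n.choose k : ℝ) :=
      mul_le_mul_of_nonneg_right (by linarith) hc
    have e5 : (k : ℝ) ^ 2 / n * (n.choose k : ℝ) ≤ ε / 4 * (n.choose k : ℝ) :=
      mul_le_mul_of_nonneg_right hk2n hc
    linarith
  have h4 : max (1 - (1 - h / n) ^ k) (((k : ℝ) * (h / n)) ^ k) * (n.choose k : ℝ) ≤
      max (LL k (ds n h 1) : ℝ) (LL k (ds n h k) : ℝ) + ε / 2 * (n.choose k : ℝ) := by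
    have e0 : 0 ≤ ε / 4 * (n.choose k : ℝ) := by positivity
    rcases max_choice (1 - (1 - h / n) ^ k) (((k : ℝ) * (h / n)) ^ k) with h5 | h5
    · rw [h5]
      have := le_max_left (LL k (ds n h 1) : ℝ) (LL k (ds n h k) : ℝ)
      linarith
    · rw [h5]
      have := le_max_right (LL k (ds n h 1) : ℝ) (LL k (ds n h k) : ℝ)
      linarith
  rw [add_mul] at h1
  linarith

end Pool.Agent.Q128.EM
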