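import Pool.Agent.Q128.EM.Core2
import Pool.Agent.Q54.EM.Main

/-!
# Uniform asymptotic Erdos matching theorem and poison distributions
-/

set_option autoImplicit false

namespace Pool.Agent.Q128.EM

open Finset Pool.Agent.Q54.EM Pool.Agent.W890.SF Pool.Agent.W593.IR

/-- the pointwise upper bound -/
theorem px (k : ℕ) (hk : 2 ≤ k) (x : ℝ) (hx : 0 < x) (hx1 : x ≤ 1 / (k : ℝ)) : PX k x := by
  classical
  intro ε hε
  have hk0 : (0 : ℝ) < k := by positivity
  rcases Pool.Agent.Q54.EM.ubk k hk x hx hx1 with h | ⟨-, hU⟩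
  · refine ⟨0, fun n _ F hF _ => ?_⟩
    have h1 : F.card ≤ n.choose k := by
      calc F.card ≤ (powersetCard k (univ : Finset (Fin n))).card := by
            apply card_le_card
            intro V hV
            rw [mem_powersetCard]
            exact ⟨subset_univ _, hF V hV⟩
        _ = n.choose k := by rw [card_powersetCard, card_univ, Fintype.card_fin]
    have h2 : (F.card : ℝ) ≤ n.choose k := by exact_mod_cast h1
    have h3 : ((k : ℝ) * x) ^ k = 1 := by
      rw [h, mul_one_div_cancel hk0.ne', one_pow]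
    have h4 := le_max_right (1 - (1 - x) ^ k) (((k : ℝ) * x) ^ k)
    have h5 : (0 : ℝ) ≤ n.choose k := Nat.cast_nonneg _
    have h6 : 1 * (n.choose k : ℝ) ≤ (max (1 - (1 - x) ^ k) (((k : ℝ) * x) ^ k) + ε) * (n.choose k : ℝ) :=
      mul_le_mul_of_nonneg_right (by linarith) h5
    linarith
  · obtain ⟨η, hη, n0, h0⟩ := hU ε hε
    obtain ⟨n1, hn1⟩ := exists_nat_gt (1 / η)
    refine ⟨max n0 n1, fun n hn F hF hM => ?_⟩
    have hna : n0 ≤ n := (le_max_left _ _).trans hn
    have hnb : n1 ≤ n := (le_max_right _ _).trans hn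
    by_contra hcon
    rw [not_le] at hcon
    obtain ⟨M, hMF, hd, hc⟩ := h0 n hna F hF (by unfold mv; exact hcon.le)
    have h1 := hM M hMF (fun a ha b hb hab => hd a ha b hb hab)
    rw [hc] at h1
    have h2 : (x + η) * n < (⌊(x + η) * (n : ℝ)⌋₊ : ℝ) + 1 := Nat.lt_floor_add_one _
    have h3 : 1 < η * n := by
      have : (n1 : ℝ) ≤ n := by exact_mod_cast hnb
      rw [div_lt_iff₀ hη] at hn1
      nlinarith
    nlinarith

/-- the uniform asymptotic Erdos matching theorem -/
theorem uem : Pool.Agent.Q54.EM.S_UEM := uemCore px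

/-- poison distributions, uniformly in the dose -/
theorem upd : Pool.Agent.Q54.EM.S_UPD := updCore px

end Pool.Agent.Q128.EM
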